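import Pool.Agent.W66.MA
import Pool.Agent.H381R2.HR.A1
import Pool.Agent.H630R3.W.G

set_option autoImplicit false

/-! Odd sums of `(-2)^Ω(n)` save every power of the logarithm. -/

open Finset ArithmeticFunction

namespace Pool.Agent.L5helper11.OM

open Pool.Agent.H295R3.W

/-- log saving over the reals -/
def CR (f : ℕ → ℝ) : Prop := ∀ V : ℕ, ∃ C : ℝ, 0 < C ∧ ∀ z : ℝ, 1 ≤ z →
  |∑ n ∈ Ioc 0 ⌊z⌋₊, f n| ≤ C * (z / (1 + Real.log z) ^ V)

lemma cr_of_canc {f : ℕ → ℝ} (h : Pool.Agent.W66.Canc f) : CR f := by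
  intro V
  obtain ⟨C, hC, h1⟩ := h V
  refine ⟨C * (2 * 3 ^ V), by positivity, fun z hz => ?_⟩
  have hz0 : (0 : ℝ) ≤ z := by linarith
  have hlz : 0 ≤ Real.log z := Real.log_nonneg hz
  obtain ⟨N, hN⟩ : ∃ N : ℕ, N = ⌊z⌋₊ + 1 := ⟨_, rfl⟩
  have hf1 : 1 ≤ ⌊z⌋₊ := (Nat.one_le_floor_iff z).2 hz
  have hN2 : 2 ≤ N := by omega
  have hlt : z < N := by
    rw [hN]; push_cast; exact Nat.lt_floor_add_one z
  have hle : (N : ℝ) ≤ 2 * z := by
    have := Nat.floor_le hz0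
    rw [hN]; push_cast; linarith
  have hl1 : 1 / 2 ≤ Real.log N := Pool.Agent.W66.log2_lower hN2
  have hl2 : Real.log z ≤ Real.log N := Real.log_le_log (by linarith) hlt.le
  have hlog : 1 + Real.log z ≤ 3 * Real.log N := by linarith
  have h3 : (1 + Real.log z) ^ V ≤ 3 ^ V * Real.log N ^ V := by
    rw [← mul_pow]; exact pow_le_pow_left₀ (by linarith) hlog V
  have hL : 0 < Real.log N ^ V := pow_pos (by linarith) V
  have hP : 0 < (1 + Real.log z) ^ V := pow_pos (by linarith) V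
  refine (h1 N hN2 _ (by omega)).trans ?_
  rw [mul_assoc]
  refine mul_le_mul_of_nonneg_left ?_ hC.le
  rw [← mul_div_assoc, div_le_div_iff₀ hL hP]
  calc (N : ℝ) * (1 + Real.log z) ^ V ≤ (2 * z) * (3 ^ V * Real.log N ^ V) :=
        mul_le_mul hle h3 hP.le (by linarith)
    _ = 2 * 3 ^ V * z * Real.log N ^ V := by ring

lemma log_pow_le (V : ℕ) : ∃ K : ℝ, 0 < K ∧ ∀ d : ℝ, 1 ≤ d →
    (1 + Real.log d) ^ V ≤ K * d ^ (1 / 4 : ℝ) := by
  refine ⟨4 ^ V * (V.factorial : ℝ) * Real.exp (1 / 4), by positivity, fun d hd => ?_⟩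
  have hl : 0 ≤ Real.log d := Real.log_nonneg hd
  have h1 := Real.pow_div_factorial_le_exp ((1 + Real.log d) / 4) (by linarith) V
  have h2 : Real.exp ((1 + Real.log d) / 4) = Real.exp (1 / 4) * d ^ (1 / 4 : ℝ) := by
    rw [Real.rpow_def_of_pos (by linarith), ← Real.exp_add]
    congr 1; ring
  rw [h2, div_pow, div_div, div_le_iff₀ (by positivity)] at h1
  calc (1 + Real.log d) ^ V ≤ Real.exp (1 / 4) * d ^ (1 / 4 : ℝ) * (4 ^ V * (V.factorial : ℝ)) := h1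
    _ = _ := by ring

lemma log_split {z d : ℝ} (hd : 1 ≤ d) (hz : d ≤ z) (V : ℕ) :
    (1 + Real.log z) ^ V ≤ (1 + Real.log (z / d)) ^ V * (1 + Real.log d) ^ V := by
  rw [← mul_pow]
  have hl : 0 ≤ Real.log d := Real.log_nonneg hd
  have hzd : 0 ≤ Real.log (z / d) := Real.log_nonneg (by rw [le_div_iff₀ (by linarith)]; linarith)
  have h : Real.log z = Real.log (z / d) + Real.log d := by
    rw [Real.log_div (by linarith) (by linarith)]; ring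
  refine pow_le_pow_left₀ (by rw [h]; linarith) ?_ V
  rw [h]
  nlinarith [mul_nonneg hl hzd]

lemma cr_conv (a b : ArithmeticFunction ℝ) (hb : CR (fun n => b n))
    (ha : Summable fun n : ℕ => |a n| / (n : ℝ) ^ (3 / 4 : ℝ)) : CR (fun n => (a * b) n) := by
  intro V
  obtain ⟨C, hC, h1⟩ := hb V
  obtain ⟨K, hK, h2⟩ := log_pow_le V
  set G : ℝ := ∑' n : ℕ, |a n| / (n : ℝ) ^ (3 / 4 : ℝ) with hG
  have hG0 : 0 ≤ G := tsum_nonneg fun n => by positivity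
  refine ⟨C * K * G + 1, by positivity, fun z hz => ?_⟩
  have hz0 : (0 : ℝ) ≤ z := by linarith
  have hlz : 0 ≤ Real.log z := Real.log_nonneg hz
  have hP : 0 < (1 + Real.log z) ^ V := pow_pos (by linarith) V
  have hyp := Pool.Agent.H381R2.HR.A1aux.hyperbola a b ⌊z⌋₊ ⌊z⌋₊ 0 (by simp) (by simp)
  simp only [Ioc_self, sum_empty, mul_zero, add_zero, sub_zero] at hyp
  have hterm : ∀ d ∈ Ioc 0 ⌊z⌋₊, |a d * ∑ e ∈ Ioc 0 (⌊z⌋₊ / d), b e| ≤
      C * K * (z / (1 + Real.log z) ^ V) * (|a d| / (d : ℝ) ^ (3 / 4 : ℝ)) := by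
    intro d hd
    rw [mem_Ioc] at hd
    have hd1 : (1 : ℝ) ≤ d := by exact_mod_cast hd.1
    have hdz : (d : ℝ) ≤ z := (Nat.cast_le.2 hd.2).trans (Nat.floor_le hz0)
    have hzd : 1 ≤ z / d := by rw [le_div_iff₀ (by linarith)]; linarith
    have h3 := h1 (z / d) hzd
    rw [Nat.floor_div_natCast] at h3
    have h4 := log_split hd1 hdz V
    have h5 := h2 d hd1
    have hQ : 0 < (1 + Real.log (z / d)) ^ V := pow_pos (by linarith [Real.log_nonneg hzd]) V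
    have h6 : z / d / (1 + Real.log (z / d)) ^ V ≤
        K * (z / (1 + Real.log z) ^ V) / (d : ℝ) ^ (3 / 4 : ℝ) := by
      have hd34 : 0 < (d : ℝ) ^ (3 / 4 : ℝ) := Real.rpow_pos_of_pos (by linarith) _
      have hd14 : 0 < (d : ℝ) ^ (1 / 4 : ℝ) := Real.rpow_pos_of_pos (by linarith) _
      have hdd : (d : ℝ) = (d : ℝ) ^ (1 / 4 : ℝ) * (d : ℝ) ^ (3 / 4 : ℝ) := by
        rw [← Real.rpow_add (by linarith)]; norm_num
      have h7 : (1 + Real.log z) ^ V ≤ (1 + Real.log (z / d)) ^ V * (K * (d : ℝ) ^ (1 / 4 : ℝ)) :=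
        h4.trans (mul_le_mul_of_nonneg_left h5 hQ.le)
      rw [div_div, ← mul_div_assoc, div_div, div_le_div_iff₀ (by positivity) (by positivity)]
      calc z * ((1 + Real.log z) ^ V * (d : ℝ) ^ (3 / 4 : ℝ))
          ≤ z * ((1 + Real.log (z / d)) ^ V * (K * (d : ℝ) ^ (1 / 4 : ℝ)) * (d : ℝ) ^ (3 / 4 : ℝ)) := by
            gcongr
        _ = K * z * (((d : ℝ) ^ (1 / 4 : ℝ) * (d : ℝ) ^ (3 / 4 : ℝ)) * (1 + Real.log (z / d)) ^ V) := by
            ring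
        _ = K * z * ((d : ℝ) * (1 + Real.log (z / d)) ^ V) := by rw [← hdd]
    rw [abs_mul]
    calc |a d| * |∑ e ∈ Ioc 0 (⌊z⌋₊ / d), b e|
        ≤ |a d| * (C * (K * (z / (1 + Real.log z) ^ V) / (d : ℝ) ^ (3 / 4 : ℝ))) :=
          mul_le_mul_of_nonneg_left (h3.trans (mul_le_mul_of_nonneg_left h6 hC.le)) (abs_nonneg _)
      _ = _ := by ring
  change |∑ n ∈ Ioc 0 ⌊z⌋₊, (a * b) n| ≤ _
  rw [hyp]
  have h8 : 0 ≤ z / (1 + Real.log z) ^ V := by positivity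
  calc |∑ d ∈ Ioc 0 ⌊z⌋₊, a d * ∑ e ∈ Ioc 0 (⌊z⌋₊ / d), b e|
      ≤ ∑ d ∈ Ioc 0 ⌊z⌋₊, |a d * ∑ e ∈ Ioc 0 (⌊z⌋₊ / d), b e| := abs_sum_le_sum_abs _ _
    _ ≤ ∑ d ∈ Ioc 0 ⌊z⌋₊, C * K * (z / (1 + Real.log z) ^ V) * (|a d| / (d : ℝ) ^ (3 / 4 : ℝ)) :=
        sum_le_sum hterm
    _ = C * K * (z / (1 + Real.log z) ^ V) * ∑ d ∈ Ioc 0 ⌊z⌋₊, (|a d| / (d : ℝ) ^ (3 / 4 : ℝ)) := by
        rw [mul_sum]
    _ ≤ C * K * (z / (1 + Real.log z) ^ V) * G :=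
        mul_le_mul_of_nonneg_left (ha.sum_le_tsum _ fun n _ => by positivity) (by positivity)
    _ ≤ (C * K * G + 1) * (z / (1 + Real.log z) ^ V) := by nlinarith

/-- the Möbius function as a real arithmetic function -/
noncomputable abbrev mu : ArithmeticFunction ℝ := ((moebius : ArithmeticFunction ℤ) : ArithmeticFunction ℝ)

lemma cr_mu : CR (fun n => mu n) := by
  have := cr_of_canc Pool.Agent.W66.canc_mu
  intro V
  obtain ⟨C, hC, h⟩ := this V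
  exact ⟨C, hC, fun z hz => by simpa using h z hz⟩

lemma abs_mu_le (n : ℕ) : |mu n| ≤ 1 := by
  rw [show mu n = ((moebius n : ℤ) : ℝ) by simp]
  exact_mod_cast abs_moebius_le_one

lemma harm_le (z : ℝ) (hz : 1 ≤ z) : ∑ d ∈ Ioc 0 ⌊√z⌋₊, (1 : ℝ) / d ≤ 1 + Real.log z := by
  have h1 : ∑ d ∈ Ioc 0 ⌊√z⌋₊, (1 : ℝ) / d = ((harmonic ⌊√z⌋₊ : ℚ) : ℝ) := by
    rw [harmonic_eq_sum_Icc]
    push_cast
    exact sum_congr (by ext; simp [Nat.succ_le_iff]) fun d _ => by rw [one_div]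
  rw [h1]
  have hs : 1 ≤ √z := Real.one_le_sqrt.2 hz
  have h2 := harmonic_floor_le_one_add_log (√z) hs
  have h3 : Real.log (√z) ≤ Real.log z :=
    Real.log_le_log (by linarith) (by rw [Real.sqrt_le_left (by linarith)]; nlinarith)
  linarith

lemma cr_mumu : CR (fun n => mu2 n) := by
  intro V
  obtain ⟨C, hC, h1⟩ := cr_mu (V + 1)
  obtain ⟨C0, hC0, h0⟩ := cr_mu 0
  refine ⟨2 * (C * 2 ^ (V + 1)) + C0 * (C * 2 ^ (V + 1)), by positivity, fun z hz => ?_⟩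
  have hz0 : (0 : ℝ) ≤ z := by linarith
  have hlz : 0 ≤ Real.log z := Real.log_nonneg hz
  have hs : 1 ≤ √z := Real.one_le_sqrt.2 hz
  have hsq : √z * √z = z := Real.mul_self_sqrt hz0
  set A : ℕ := ⌊√z⌋₊ with hA
  have hAs : (A : ℝ) ≤ √z := Nat.floor_le (by linarith)
  have hAs' : √z < (A : ℝ) + 1 := Nat.lt_floor_add_one _
  have c1 : A * A ≤ ⌊z⌋₊ := by
    refine Nat.le_floor ?_
    push_cast
    nlinarith [Nat.cast_nonneg (α := ℝ) A]
  have c2 : ⌊z⌋₊ < (A + 1) * (A + 1) := by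
    have : ((⌊z⌋₊ : ℕ) : ℝ) < (((A + 1) * (A + 1) : ℕ) : ℝ) := by
      push_cast
      nlinarith [Nat.floor_le hz0]
    exact_mod_cast this
  have hyp := Pool.Agent.H381R2.HR.A1aux.hyperbola mu mu ⌊z⌋₊ A A c1 c2
  have hlogs : Real.log (√z) = Real.log z / 2 := Real.log_sqrt hz0
  have hP : 0 < (1 + Real.log z) ^ (V + 1) := pow_pos (by linarith) _
  have hP' : 0 < (1 + Real.log z) ^ V := pow_pos (by linarith) _
  have key : ∀ w : ℝ, √z ≤ w → w / (1 + Real.log w) ^ (V + 1) ≤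
      2 ^ (V + 1) * (w / (1 + Real.log z) ^ (V + 1)) := by
    intro w hw
    have hw0 : 0 < w := by linarith
    have h2 : Real.log (√z) ≤ Real.log w := Real.log_le_log (by linarith) hw
    have h3 : (1 + Real.log z) ^ (V + 1) ≤ 2 ^ (V + 1) * (1 + Real.log w) ^ (V + 1) := by
      rw [← mul_pow]
      exact pow_le_pow_left₀ (by linarith) (by linarith) _
    have hQ : 0 < (1 + Real.log w) ^ (V + 1) := pow_pos (by linarith) _
    rw [← mul_div_assoc, div_le_div_iff₀ hQ hP]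
    nlinarith
  have hterm : ∀ d ∈ Ioc 0 A, |mu d * ∑ e ∈ Ioc 0 (⌊z⌋₊ / d), mu e| ≤
      C * 2 ^ (V + 1) * (z / (1 + Real.log z) ^ (V + 1)) * (1 / d) := by
    intro d hd
    rw [mem_Ioc] at hd
    have hd1 : (1 : ℝ) ≤ d := by exact_mod_cast hd.1
    have hdz : (d : ℝ) ≤ √z := (Nat.cast_le.2 hd.2).trans hAs
    have hzd' : √z ≤ z / d := by rw [le_div_iff₀ (by linarith)]; nlinarith
    have h3 := h1 (z / d) (hs.trans hzd')
    rw [Nat.floor_div_natCast] at h3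
    rw [abs_mul]
    calc |mu d| * |∑ e ∈ Ioc 0 (⌊z⌋₊ / d), mu e|
        ≤ 1 * (C * (2 ^ (V + 1) * (z / d / (1 + Real.log z) ^ (V + 1)))) :=
          mul_le_mul (abs_mu_le d) (h3.trans (mul_le_mul_of_nonneg_left (key _ hzd') hC.le))
            (abs_nonneg _) zero_le_one
      _ = _ := by field_simp
  have hsum : |∑ d ∈ Ioc 0 A, mu d * ∑ e ∈ Ioc 0 (⌊z⌋₊ / d), mu e| ≤
      C * 2 ^ (V + 1) * (z / (1 + Real.log z) ^ V) := by
    calc |∑ d ∈ Ioc 0 A, mu d * ∑ e ∈ Ioc 0 (⌊z⌋₊ / d), mu e|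
        ≤ ∑ d ∈ Ioc 0 A, |mu d * ∑ e ∈ Ioc 0 (⌊z⌋₊ / d), mu e| := abs_sum_le_sum_abs _ _
      _ ≤ ∑ d ∈ Ioc 0 A, C * 2 ^ (V + 1) * (z / (1 + Real.log z) ^ (V + 1)) * (1 / d) :=
          sum_le_sum hterm
      _ = C * 2 ^ (V + 1) * (z / (1 + Real.log z) ^ (V + 1)) * ∑ d ∈ Ioc 0 A, (1 : ℝ) / d := by
          rw [mul_sum]
      _ ≤ C * 2 ^ (V + 1) * (z / (1 + Real.log z) ^ (V + 1)) * (1 + Real.log z) :=
          mul_le_mul_of_nonneg_left (harm_le z hz) (by positivity)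
      _ = C * 2 ^ (V + 1) * (z / (1 + Real.log z) ^ V) := by
          have : (1 + Real.log z) ≠ 0 := by linarith
          rw [pow_succ (1 + Real.log z)]; field_simp
  have hM : |∑ a ∈ Ioc 0 A, mu a| ≤ C0 * √z := by
    have := h0 (√z) hs
    simpa using this
  have hM' : |∑ a ∈ Ioc 0 A, mu a| ≤ C * 2 ^ (V + 1) * (√z / (1 + Real.log z) ^ V) := by
    have h4 := (h1 (√z) hs).trans (mul_le_mul_of_nonneg_left (key _ le_rfl) hC.le)
    refine h4.trans ?_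
    have h5 : (1 + Real.log z) ^ V ≤ (1 + Real.log z) ^ (V + 1) :=
      pow_le_pow_right₀ (by linarith) (by omega)
    rw [← mul_assoc]
    gcongr
  change |∑ n ∈ Ioc 0 ⌊z⌋₊, (mu * mu) n| ≤ _
  rw [hyp]
  have hprod : |(∑ a ∈ Ioc 0 A, mu a) * ∑ b ∈ Ioc 0 A, mu b| ≤
      C0 * (C * 2 ^ (V + 1)) * (z / (1 + Real.log z) ^ V) := by
    rw [abs_mul]
    calc |∑ a ∈ Ioc 0 A, mu a| * |∑ b ∈ Ioc 0 A, mu b|
        ≤ (C0 * √z) * (C * 2 ^ (V + 1) * (√z / (1 + Real.log z) ^ V)) :=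
          mul_le_mul hM hM' (abs_nonneg _) (by positivity)
      _ = C0 * (C * 2 ^ (V + 1)) * ((√z * √z) / (1 + Real.log z) ^ V) := by ring
      _ = _ := by rw [hsq]
  calc _ ≤ |∑ a ∈ Ioc 0 A, mu a * ∑ b ∈ Ioc 0 (⌊z⌋₊ / a), mu b| +
        |∑ b ∈ Ioc 0 A, mu b * ∑ a ∈ Ioc 0 (⌊z⌋₊ / b), mu a| +
        |(∑ a ∈ Ioc 0 A, mu a) * ∑ b ∈ Ioc 0 A, mu b| :=
        (abs_sub _ _).trans (by gcongr; exact abs_add_le _ _)
    _ ≤ C * 2 ^ (V + 1) * (z / (1 + Real.log z) ^ V) + C * 2 ^ (V + 1) * (z / (1 + Real.log z) ^ V) +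
        C0 * (C * 2 ^ (V + 1)) * (z / (1 + Real.log z) ^ V) := by
        gcongr
    _ = _ := by ring

lemma fo_eq : fo = g * mu2 := by
  have h : mu * ((zeta : ArithmeticFunction ℕ) : ArithmeticFunction ℝ) = 1 :=
    coe_moebius_mul_coe_zeta
  have h2 : g * mu2 = (mu * ((zeta : ArithmeticFunction ℕ) : ArithmeticFunction ℝ)) *
      (mu * ((zeta : ArithmeticFunction ℕ) : ArithmeticFunction ℝ)) * fo := by
    rw [g, mu2]; ring
  rw [h2, h]; simp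

/-- the odd sums save every power of the logarithm -/
theorem cr_fo : CR (fun n => fo n) := by
  rw [fo_eq]
  exact cr_conv g mu2 cr_mumu Pool.Agent.H630R3.W.taskG

end Pool.Agent.L5helper11.OM
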