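import Pool.Agent.L5helper11.OM.A

set_option autoImplicit false

/-! The limit function of `S(x)/x` for `S(x) = ∑_{n ≤ x} (-2)^Ω(n)`. -/

open Finset ArithmeticFunction Filter Topology

namespace Pool.Agent.L5helper11.OM

/-- `S(x) = ∑_{1 ≤ n ≤ x} (-2)^Ω(n)` -/
noncomputable def S (x : ℝ) : ℝ := ∑ n ∈ Icc 1 ⌊x⌋₊, (-2 : ℝ) ^ (cardFactors n)

/-- the same sum over odd `n` -/
noncomputable def U (x : ℝ) : ℝ := ∑ n ∈ (Icc 1 ⌊x⌋₊).filter Odd, (-2 : ℝ) ^ (cardFactors n)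

/-- the limit function -/
noncomputable def F (y : ℝ) : ℝ := ∑' i : ℕ, (-1 : ℝ) ^ i * (U (2 ^ i * y) / (2 ^ i * y))

lemma Icc_eq_Ioc (N : ℕ) : Icc 1 N = Ioc 0 N := by
  ext n; simp [Nat.succ_le_iff]

lemma U_eq (z : ℝ) : U z = ∑ n ∈ Ioc 0 ⌊z⌋₊, Pool.Agent.H295R3.W.fo n := by
  rw [U, Icc_eq_Ioc, sum_filter]
  refine sum_congr rfl fun n _ => ?_
  rw [Pool.Agent.H630R3.W.fo_apply]
  by_cases h : n % 2 = 1
  · rw [if_pos (Nat.odd_iff.2 h), if_pos h]; rfl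
  · rw [if_neg (fun h' => h (Nat.odd_iff.1 h')), if_neg h]

lemma U_bound (V : ℕ) : ∃ C : ℝ, 0 < C ∧ ∀ z : ℝ, 1 ≤ z → |U z| ≤ C * (z / (1 + Real.log z) ^ V) := by
  obtain ⟨C, hC, h⟩ := cr_fo V
  exact ⟨C, hC, fun z hz => by rw [U_eq]; exact h z hz⟩

lemma S_zero {x : ℝ} (hx : x < 1) : S x = 0 := by
  rw [S, Nat.floor_eq_zero.2 hx]; simp

lemma S_rec {x : ℝ} : S x = U x - 2 * S (x / 2) := by
  have h1 : ⌊x / 2⌋₊ = ⌊x⌋₊ / 2 := by
    have := Nat.floor_div_natCast x 2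
    simpa using this
  rw [S, S, U, h1]
  rw [← sum_filter_add_sum_filter_not (Icc 1 ⌊x⌋₊) Odd]
  have h2 : ∑ n ∈ (Icc 1 ⌊x⌋₊).filter (fun n => ¬ Odd n), (-2 : ℝ) ^ (cardFactors n) =
      ∑ m ∈ Icc 1 (⌊x⌋₊ / 2), (-2 : ℝ) * (-2 : ℝ) ^ (cardFactors m) := by
    refine (sum_nbij (fun m => 2 * m) ?_ ?_ ?_ ?_).symm
    · intro m hm
      rw [mem_Icc] at hm
      rw [mem_filter, mem_Icc]
      refine ⟨⟨by omega, by omega⟩, ?_⟩
      rw [Nat.not_odd_iff_even]; exact even_two_mul m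
    · intro a _ b _ h
      simpa using h
    · intro n hn
      simp only [coe_filter, Set.mem_ofPred_eq, mem_Icc, Nat.not_odd_iff_even] at hn
      obtain ⟨m, hm⟩ := hn.2
      refine ⟨m, ?_, by simp only; omega⟩
      rw [mem_coe, mem_Icc]
      omega
    · intro m hm
      rw [mem_Icc] at hm
      rw [cardFactors_mul (by norm_num) (by omega), cardFactors_apply_prime Nat.prime_two, pow_add,
        pow_one]
  rw [h2, ← mul_sum]
  ring

lemma S_formula {y : ℝ} (hy : 1 ≤ y) (hy2 : y < 2) (k : ℕ) :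
    S (2 ^ k * y) / (2 ^ k * y) =
      (-1) ^ k * ∑ i ∈ range (k + 1), (-1 : ℝ) ^ i * (U (2 ^ i * y) / (2 ^ i * y)) := by
  have hy0 : y ≠ 0 := by linarith
  induction k with
  | zero =>
    rw [S_rec, S_zero (x := 2 ^ 0 * y / 2) (by simp; linarith)]
    simp
  | succ k ih =>
    rw [sum_range_succ, S_rec, mul_add, ← mul_assoc ((-1 : ℝ) ^ (k + 1)) ((-1 : ℝ) ^ (k + 1)),
      ← pow_add, Even.neg_one_pow ⟨k + 1, rfl⟩, one_mul]
    have h1 : (2 : ℝ) ^ (k + 1) * y / 2 = 2 ^ k * y := by rw [pow_succ]; ring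
    rw [h1]
    have h2 : (U (2 ^ (k + 1) * y) - 2 * S (2 ^ k * y)) / (2 ^ (k + 1) * y) =
        U (2 ^ (k + 1) * y) / (2 ^ (k + 1) * y) - S (2 ^ k * y) / (2 ^ k * y) := by
      rw [sub_div]
      congr 1
      rw [pow_succ]
      field_simp
    rw [h2, ih, pow_succ]
    ring

lemma term_bound (V : ℕ) : ∃ C : ℝ, 0 < C ∧ ∀ (i : ℕ) (y : ℝ), 1 ≤ y →
    |(-1 : ℝ) ^ i * (U (2 ^ i * y) / (2 ^ i * y))| ≤ C / ((i : ℝ) + 1) ^ V := by
  obtain ⟨C, hC, h⟩ := U_bound V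
  refine ⟨C * 2 ^ V, by positivity, fun i y hy => ?_⟩
  have hz : (1 : ℝ) ≤ 2 ^ i * y := one_le_mul_of_one_le_of_one_le (one_le_pow₀ (by norm_num)) hy
  have h1 := h _ hz
  rw [abs_mul, abs_pow, abs_neg, abs_one, one_pow, one_mul, abs_div, abs_of_pos (by linarith : 0 < 2 ^ i * y),
    div_le_iff₀ (by linarith)]
  refine h1.trans ?_
  have hl : Real.log (2 ^ i) ≤ Real.log (2 ^ i * y) :=
    Real.log_le_log (by positivity) (le_mul_of_one_le_right (by positivity) hy)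
  rw [Real.log_pow] at hl
  have hl2 := Real.log_two_gt_d9
  have h3 : ((i : ℝ) + 1) ≤ 2 * (1 + Real.log (2 ^ i * y)) := by
    have : (i : ℝ) * (1 / 2) ≤ i * Real.log 2 := mul_le_mul_of_nonneg_left (by linarith) (Nat.cast_nonneg i)
    linarith
  have h4 : ((i : ℝ) + 1) ^ V ≤ 2 ^ V * (1 + Real.log (2 ^ i * y)) ^ V := by
    rw [← mul_pow]; exact pow_le_pow_left₀ (by positivity) h3 V
  have hlp : 0 ≤ Real.log (2 ^ i * y) := Real.log_nonneg hz
  have hP : 0 < (1 + Real.log (2 ^ i * y)) ^ V := pow_pos (by linarith) V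
  rw [div_mul_eq_mul_div, mul_div_assoc', div_le_div_iff₀ hP (by positivity)]
  nlinarith [mul_le_mul_of_nonneg_left h4 (by positivity : (0:ℝ) ≤ C * (2 ^ i * y))]

lemma inv_sq_summable : Summable fun i : ℕ => 1 / ((i : ℝ) + 1) ^ 2 := by
  have := (summable_nat_add_iff 1).2 (Real.summable_one_div_nat_pow (p := 2)|>.2 (by norm_num))
  simpa using this

lemma F_summable {y : ℝ} (hy : 1 ≤ y) :
    Summable fun i : ℕ => (-1 : ℝ) ^ i * (U (2 ^ i * y) / (2 ^ i * y)) := by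
  obtain ⟨C, hC, h⟩ := term_bound 2
  refine Summable.of_norm_bounded (inv_sq_summable.mul_left C) fun i => ?_
  rw [Real.norm_eq_abs]
  refine (h i y hy).trans (le_of_eq ?_)
  ring

/-- convergence to the limit function with any power of `1/k` -/
theorem F_rate (A : ℕ) : ∃ C : ℝ, 0 < C ∧ ∀ (k : ℕ) (y : ℝ), 1 ≤ y → y < 2 →
    |S (2 ^ k * y) / (2 ^ k * y) - (-1) ^ k * F y| ≤ C / ((k : ℝ) + 1) ^ A := by
  obtain ⟨C, hC, h⟩ := term_bound (A + 2)
  set Z : ℝ := ∑' i : ℕ, 1 / ((i : ℝ) + 1) ^ 2 with hZ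
  have hZ0 : 0 ≤ Z := tsum_nonneg fun i => by positivity
  refine ⟨C * Z + 1, by positivity, fun k y hy hy2 => ?_⟩
  have hs := F_summable hy
  have h1 := hs.sum_add_tsum_nat_add (k + 1)
  rw [S_formula hy hy2 k, ← mul_sub, abs_mul, abs_pow, abs_neg, abs_one, one_pow, one_mul, F, ← h1]
  rw [sub_add_cancel_left, abs_neg]
  have h2 : ∀ i : ℕ, ‖(-1 : ℝ) ^ (i + (k + 1)) * (U (2 ^ (i + (k + 1)) * y) / (2 ^ (i + (k + 1)) * y))‖ ≤
      C / ((k : ℝ) + 1) ^ A * (1 / ((i : ℝ) + 1) ^ 2) := by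
    intro i
    rw [Real.norm_eq_abs]
    refine (h (i + (k + 1)) y hy).trans ?_
    push_cast
    rw [div_mul_div_comm, mul_one]
    refine div_le_div_of_nonneg_left hC.le (by positivity) ?_
    rw [pow_add]
    have hi : (0 : ℝ) ≤ i := Nat.cast_nonneg i
    have hk : (0 : ℝ) ≤ k := Nat.cast_nonneg k
    exact mul_le_mul (pow_le_pow_left₀ (by positivity) (by linarith) A)
      (pow_le_pow_left₀ (by positivity) (by linarith) 2) (by positivity) (by positivity)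
  have h3 := tsum_of_norm_bounded ((inv_sq_summable.mul_left (C / ((k : ℝ) + 1) ^ A)).hasSum) h2
  rw [Real.norm_eq_abs, tsum_mul_left, ← hZ] at h3
  refine h3.trans ?_
  rw [div_mul_eq_mul_div]
  exact div_le_div_of_nonneg_right (by linarith) (by positivity)

end Pool.Agent.L5helper11.OM
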