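import Pool.Agent.L5helper11.OM.B

set_option autoImplicit false

/-! `limsup |S(x)|/x` is the maximum of the limit function. -/

open Finset ArithmeticFunction Filter Topology

namespace Pool.Agent.L5helper11.OM

/-- the supremum of `|F|` over one period -/
noncomputable def M : ℝ := sSup ((fun y => |F y|) '' Set.Ico 1 2)

lemma F_le {y : ℝ} (hy : y ∈ Set.Ico (1 : ℝ) 2) : |F y| ≤ M := by
  refine le_csSup ?_ ⟨y, hy, rfl⟩
  obtain ⟨C, hC, h⟩ := F_rate 0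
  refine ⟨C + |S 1|, ?_⟩
  rintro _ ⟨z, hz, rfl⟩
  have h1 := h 0 z hz.1 hz.2
  simp only [pow_zero, one_mul, div_one] at h1
  have h2 : S z = S 1 := by
    rw [S, S]
    have h3 : ⌊z⌋₊ = 1 := by
      rw [Nat.floor_eq_iff (by linarith [hz.1])]
      constructor
      · simpa using hz.1
      · have := hz.2; push_cast; linarith
    rw [h3, Nat.floor_one]
  have h4 : |S z / z| ≤ |S 1| := by
    rw [h2, abs_div, abs_of_pos (by linarith [hz.1] : 0 < z)]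
    exact div_le_self (abs_nonneg _) hz.1
  have h5 : |F z| ≤ |S z / z| + |S z / z - F z| := by
    have := abs_sub_abs_le_abs_sub (F z) (S z / z)
    rw [abs_sub_comm] at this
    linarith
  simp only
  linarith

lemma F_bdd : BddAbove ((fun y => |F y|) '' Set.Ico 1 2) := by
  refine ⟨M, ?_⟩
  rintro _ ⟨z, hz, rfl⟩
  exact F_le hz

lemma M_nonneg : 0 ≤ M := (abs_nonneg (F 1)).trans (F_le (by norm_num))

/-- every `x ≥ 1` is `2^k y` -/
lemma exists_rep {x : ℝ} (hx : 1 ≤ x) : ∃ (k : ℕ) (y : ℝ), 1 ≤ y ∧ y < 2 ∧ x = 2 ^ k * y := by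
  obtain ⟨k, h1, h2⟩ := exists_nat_pow_near hx (by norm_num : (1 : ℝ) < 2)
  have hp : (0 : ℝ) < 2 ^ k := by positivity
  refine ⟨k, x / 2 ^ k, ?_, ?_, by field_simp⟩
  · rw [le_div_iff₀ hp]; linarith
  · rw [div_lt_iff₀ hp]; rw [pow_succ] at h2; linarith

/-- a function of size at most `M + O(1/k)` on the blocks that comes near `M` -/
lemma limsup_eq (G : ℝ → ℝ) (hup : ∃ C : ℝ, ∀ (k : ℕ) (y : ℝ), 1 ≤ y → y < 2 →
      G (2 ^ k * y) ≤ M + C / ((k : ℝ) + 1))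
    (hlow : ∀ y : ℝ, 1 ≤ y → y < 2 → ∃ C : ℝ, ∀ n : ℕ, ∃ k : ℕ, n ≤ k ∧
      |F y| - C / ((k : ℝ) + 1) ≤ G (2 ^ k * y)) :
    limsup (fun x : ℝ => ((G x : ℝ) : EReal)) atTop = ((M : ℝ) : EReal) := by
  apply le_antisymm
  · by_contra hcon
    rw [not_le] at hcon
    obtain ⟨r, hr1, hr2⟩ := EReal.lt_iff_exists_real_btwn.1 hcon
    rw [EReal.coe_lt_coe_iff] at hr1
    obtain ⟨C, hC⟩ := hup
    have hC0 : ∃ K : ℕ, |C| / (r - M) ≤ K := exists_nat_ge _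
    obtain ⟨K, hK⟩ := hC0
    have hev : ∀ᶠ x : ℝ in atTop, ((G x : ℝ) : EReal) ≤ ((r : ℝ) : EReal) := by
      filter_upwards [eventually_ge_atTop (2 ^ K * 2 : ℝ)] with x hx
      have hx1 : 1 ≤ x := by
        have : (1 : ℝ) ≤ 2 ^ K := one_le_pow₀ (by norm_num)
        linarith
      obtain ⟨k, y, hy1, hy2, rfl⟩ := exists_rep hx1
      rw [EReal.coe_le_coe_iff]
      refine (hC k y hy1 hy2).trans ?_
      have hKk : K ≤ k := by
        by_contra hlt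
        rw [not_le] at hlt
        have h1 : (2 : ℝ) ^ k ≤ 2 ^ K := pow_le_pow_right₀ (by norm_num) hlt.le
        have h2 : (0 : ℝ) < 2 ^ k := by positivity
        nlinarith
      have h3 : (K : ℝ) ≤ k := by exact_mod_cast hKk
      have h4 : 0 < r - M := by linarith
      have h5 : C / ((k : ℝ) + 1) ≤ r - M := by
        rw [div_le_iff₀ (by positivity)]
        rw [div_le_iff₀ h4] at hK
        have := le_abs_self C
        nlinarith
      linarith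
    exact absurd (limsup_le_of_le (by isBoundedDefault) hev) (not_le.2 hr2)
  · by_contra hcon
    rw [not_le] at hcon
    obtain ⟨r, hr1, hr2⟩ := EReal.lt_iff_exists_real_btwn.1 hcon
    rw [EReal.coe_lt_coe_iff] at hr2
    obtain ⟨_, ⟨y, hy, rfl⟩, hry⟩ := exists_lt_of_lt_csSup (⟨_, ⟨1, by norm_num, rfl⟩⟩ :
      ((fun y => |F y|) '' Set.Ico 1 2).Nonempty) hr2
    simp only at hry
    have hev := eventually_lt_of_limsup_lt hr1
    obtain ⟨x₀, hx₀⟩ := eventually_atTop.1 hev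
    obtain ⟨C, hC⟩ := hlow y hy.1 hy.2
    obtain ⟨n1, hn1⟩ := exists_nat_ge (|C| / (|F y| - r))
    obtain ⟨n2, hn2⟩ := pow_unbounded_of_one_lt x₀ (by norm_num : (1 : ℝ) < 2)
    obtain ⟨k, hk, hG⟩ := hC (max n1 n2)
    have hk1 : (n1 : ℝ) ≤ k := by exact_mod_cast (le_max_left n1 n2).trans hk
    have hk2 : n2 ≤ k := (le_max_right n1 n2).trans hk
    have h1 : x₀ ≤ 2 ^ k * y := by
      have h2 : (2 : ℝ) ^ n2 ≤ 2 ^ k := pow_le_pow_right₀ (by norm_num) hk2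
      have h3 : (2 : ℝ) ^ k ≤ 2 ^ k * y := le_mul_of_one_le_right (by positivity) hy.1
      linarith
    have h4 := hx₀ _ h1
    rw [EReal.coe_lt_coe_iff] at h4
    have h5 : 0 < |F y| - r := by linarith
    have h6 : C / ((k : ℝ) + 1) ≤ |F y| - r := by
      rw [div_le_iff₀ (by positivity)]
      rw [div_le_iff₀ h5] at hn1
      have := le_abs_self C
      nlinarith
    linarith

lemma abs_S_near : ∃ C : ℝ, 0 < C ∧ ∀ (k : ℕ) (y : ℝ), 1 ≤ y → y < 2 →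
    |(S (2 ^ k * y) / (2 ^ k * y)) - (-1) ^ k * F y| ≤ C / ((k : ℝ) + 1) := by
  obtain ⟨C, hC, h⟩ := F_rate 1
  exact ⟨C, hC, fun k y hy hy2 => by simpa using h k y hy hy2⟩

lemma abs_sgn (k : ℕ) (t : ℝ) : |(-1) ^ k * t| = |t| := by
  rw [abs_mul, abs_pow, abs_neg, abs_one, one_pow, one_mul]

theorem alpha_eq : limsup (fun x : ℝ => ((|S x| / x : ℝ) : EReal)) atTop = ((M : ℝ) : EReal) := by
  obtain ⟨C, hC, h⟩ := abs_S_near
  have hpos : ∀ (k : ℕ) (y : ℝ), 1 ≤ y → (0 : ℝ) < 2 ^ k * y := fun k y hy => by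
    have : (0 : ℝ) < y := by linarith
    positivity
  have habs : ∀ (k : ℕ) (y : ℝ), 1 ≤ y → |S (2 ^ k * y)| / (2 ^ k * y) = |S (2 ^ k * y) / (2 ^ k * y)| :=
    fun k y hy => by rw [abs_div, abs_of_pos (hpos k y hy)]
  refine limsup_eq (fun x => |S x| / x) ⟨C, fun k y hy hy2 => ?_⟩ fun y hy hy2 => ⟨C, fun n =>
    ⟨n, le_rfl, ?_⟩⟩
  · skip
    rw [habs k y hy]
    have h1 := h k y hy hy2
    have h2 := abs_sub_abs_le_abs_sub (S (2 ^ k * y) / (2 ^ k * y)) ((-1) ^ k * F y)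
    rw [abs_sgn] at h2
    have h3 := F_le (⟨hy, hy2⟩ : y ∈ Set.Ico (1 : ℝ) 2)
    linarith
  · skip
    rw [habs n y hy]
    have h1 := h n y hy hy2
    have h2 := abs_sub_abs_le_abs_sub ((-1) ^ n * F y) (S (2 ^ n * y) / (2 ^ n * y))
    rw [abs_sgn, abs_sub_comm] at h2
    linarith

/-- the signed version: `s = 1` or `s = -1` -/
theorem signed_eq (s : ℝ) (hs : s = 1 ∨ s = -1) :
    limsup (fun x : ℝ => ((s * (S x / x) : ℝ) : EReal)) atTop = ((M : ℝ) : EReal) := by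
  obtain ⟨C, hC, h⟩ := abs_S_near
  have hs1 : |s| = 1 := by rcases hs with rfl | rfl <;> simp
  have hh : ∀ (k : ℕ) (y : ℝ), 1 ≤ y → y < 2 →
      |s * (S (2 ^ k * y) / (2 ^ k * y)) - s * ((-1) ^ k * F y)| ≤ C / ((k : ℝ) + 1) := by
    intro k y hy hy2
    rw [← mul_sub, abs_mul, hs1, one_mul]
    exact h k y hy hy2
  refine limsup_eq (fun x => s * (S x / x)) ⟨C, fun k y hy hy2 => ?_⟩ fun y hy hy2 => ⟨C, fun n => ?_⟩
  · skip
    have h1 := abs_le.1 (hh k y hy hy2)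
    have h2 : s * ((-1) ^ k * F y) ≤ |F y| := by
      refine (le_abs_self _).trans ?_
      rw [abs_mul, hs1, one_mul, abs_sgn]
    have h3 := F_le (⟨hy, hy2⟩ : y ∈ Set.Ico (1 : ℝ) 2)
    linarith [h1.2]
  · -- choose the parity of `k`
    have hk : ∃ k : ℕ, n ≤ k ∧ s * ((-1) ^ k * F y) = |F y| := by
      have e1 : (-1 : ℝ) ^ (2 * n) = 1 := Even.neg_one_pow ⟨n, by ring⟩
      have e2 : (-1 : ℝ) ^ (2 * n + 1) = -1 := by rw [pow_succ, e1]; ring
      rcases le_total 0 (F y) with hF | hF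
      · rw [abs_of_nonneg hF]
        rcases hs with rfl | rfl
        · exact ⟨2 * n, by omega, by rw [e1]; ring⟩
        · exact ⟨2 * n + 1, by omega, by rw [e2]; ring⟩
      · rw [abs_of_nonpos hF]
        rcases hs with rfl | rfl
        · exact ⟨2 * n + 1, by omega, by rw [e2]; ring⟩
        · exact ⟨2 * n, by omega, by rw [e1]; ring⟩
    obtain ⟨k, hnk, hk⟩ := hk
    refine ⟨k, hnk, ?_⟩
    skip
    have h1 := abs_le.1 (hh k y hy hy2)
    rw [hk] at h1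
    linarith [h1.1]

/-- maxima over the dyadic blocks -/
theorem block_rate (A : ℕ) : ∃ C : ℝ, 0 < C ∧ ∀ k : ℕ,
    |sSup ((fun x => |S x| / x) '' Set.Ico (2 ^ k) (2 ^ (k + 1))) - M| ≤ C / ((k : ℝ) + 1) ^ A := by
  obtain ⟨C, hC, h⟩ := F_rate A
  refine ⟨C, hC, fun k => ?_⟩
  have hp : (0 : ℝ) < 2 ^ k := by positivity
  have hE : 0 ≤ C / ((k : ℝ) + 1) ^ A := by positivity
  have hpos : ∀ y : ℝ, 1 ≤ y → (0 : ℝ) < 2 ^ k * y := fun y hy => by
    have : (0 : ℝ) < y := by linarith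
    positivity
  have habs : ∀ y : ℝ, 1 ≤ y → |S (2 ^ k * y)| / (2 ^ k * y) = |S (2 ^ k * y) / (2 ^ k * y)| :=
    fun y hy => by rw [abs_div, abs_of_pos (hpos y hy)]
  have hset : ∀ x ∈ Set.Ico ((2 : ℝ) ^ k) (2 ^ (k + 1)), ∃ y, 1 ≤ y ∧ y < 2 ∧ x = 2 ^ k * y := by
    intro x hx
    refine ⟨x / 2 ^ k, ?_, ?_, by field_simp⟩
    · rw [le_div_iff₀ hp]; linarith [hx.1]
    · rw [div_lt_iff₀ hp]; have := hx.2; rw [pow_succ] at this; linarith
  have hupper : ∀ x ∈ Set.Ico ((2 : ℝ) ^ k) (2 ^ (k + 1)), |S x| / x ≤ M + C / ((k : ℝ) + 1) ^ A := by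
    intro x hx
    obtain ⟨y, hy, hy2, rfl⟩ := hset x hx
    rw [habs y hy]
    have h1 := h k y hy hy2
    have h2 := abs_sub_abs_le_abs_sub (S (2 ^ k * y) / (2 ^ k * y)) ((-1) ^ k * F y)
    rw [abs_sgn] at h2
    have h3 := F_le (⟨hy, hy2⟩ : y ∈ Set.Ico (1 : ℝ) 2)
    linarith
  have hne : ((fun x => |S x| / x) '' Set.Ico ((2 : ℝ) ^ k) (2 ^ (k + 1))).Nonempty :=
    ⟨_, ⟨2 ^ k, ⟨le_rfl, by rw [pow_succ]; linarith⟩, rfl⟩⟩
  have hbdd : BddAbove ((fun x => |S x| / x) '' Set.Ico ((2 : ℝ) ^ k) (2 ^ (k + 1))) := by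
    refine ⟨M + C / ((k : ℝ) + 1) ^ A, ?_⟩
    rintro _ ⟨x, hx, rfl⟩
    exact hupper x hx
  rw [abs_le]
  constructor
  · have : M ≤ sSup ((fun x => |S x| / x) '' Set.Ico ((2 : ℝ) ^ k) (2 ^ (k + 1))) +
        C / ((k : ℝ) + 1) ^ A := by
      refine csSup_le ⟨_, ⟨1, by norm_num, rfl⟩⟩ ?_
      rintro _ ⟨y, hy, rfl⟩
      simp only
      have h1 := h k y hy.1 hy.2
      have h2 := abs_sub_abs_le_abs_sub ((-1) ^ k * F y) (S (2 ^ k * y) / (2 ^ k * y))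
      rw [abs_sgn, abs_sub_comm] at h2
      have h3 : |S (2 ^ k * y)| / (2 ^ k * y) ≤
          sSup ((fun x => |S x| / x) '' Set.Ico ((2 : ℝ) ^ k) (2 ^ (k + 1))) := by
        refine le_csSup hbdd ⟨2 ^ k * y, ⟨?_, ?_⟩, rfl⟩
        · exact le_mul_of_one_le_right hp.le hy.1
        · rw [pow_succ]; exact mul_lt_mul_of_pos_left hy.2 hp
      rw [habs y hy.1] at h3
      linarith
    linarith
  · have : sSup ((fun x => |S x| / x) '' Set.Ico ((2 : ℝ) ^ k) (2 ^ (k + 1))) ≤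
        M + C / ((k : ℝ) + 1) ^ A := by
      refine csSup_le hne ?_
      rintro _ ⟨x, hx, rfl⟩
      exact hupper x hx
    linarith

end Pool.Agent.L5helper11.OM
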