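import Pool.Agent.L5helper11.OM.C

set_option autoImplicit false

/-! Measurability and right continuity of the limit function. -/

open Finset ArithmeticFunction Filter Topology

namespace Pool.Agent.L5helper11.OM

lemma S_meas : Measurable S := by
  have h : S = (fun n : ℕ => ∑ k ∈ Icc 1 n, (-2 : ℝ) ^ (cardFactors k)) ∘ (Nat.floor : ℝ → ℕ) := rfl
  rw [h]
  exact (measurable_from_nat (f := fun n : ℕ => ∑ k ∈ Icc 1 n, (-2 : ℝ) ^ (cardFactors k))).comp
    Nat.measurable_floor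

/-- the limit function, zero outside `[1, 2)` -/
noncomputable def F0 (y : ℝ) : ℝ := (Set.Ico (1 : ℝ) 2).indicator F y

lemma F_tendsto {y : ℝ} (hy : 1 ≤ y) (hy2 : y < 2) :
    Tendsto (fun k : ℕ => (-1 : ℝ) ^ k * (S (2 ^ k * y) / (2 ^ k * y))) atTop (𝓝 (F y)) := by
  obtain ⟨C, hC, h⟩ := abs_S_near
  rw [tendsto_iff_norm_sub_tendsto_zero]
  have h0 : Tendsto (fun k : ℕ => C / ((k : ℝ) + 1)) atTop (𝓝 0) := by
    have := tendsto_one_div_add_atTop_nhds_zero_nat (𝕜 := ℝ)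
    simpa [div_eq_mul_inv] using this.const_mul C
  refine squeeze_zero (fun _ => norm_nonneg _) (fun k => ?_) h0
  rw [Real.norm_eq_abs]
  have h1 : (-1 : ℝ) ^ k * (S (2 ^ k * y) / (2 ^ k * y)) - F y =
      (-1) ^ k * (S (2 ^ k * y) / (2 ^ k * y) - (-1) ^ k * F y) := by
    rw [mul_sub, ← mul_assoc, ← mul_pow]; norm_num
  rw [h1, abs_sgn]
  exact h k y hy hy2

lemma F0_meas : Measurable F0 := by
  refine measurable_of_tendsto_metrizable (f := fun k : ℕ => (Set.Ico (1 : ℝ) 2).indicator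
    (fun y => (-1 : ℝ) ^ k * (S (2 ^ k * y) / (2 ^ k * y)))) (fun k => ?_) ?_
  · refine Measurable.indicator ?_ measurableSet_Ico
    have h1 : Measurable fun y : ℝ => S (2 ^ k * y) := S_meas.comp (measurable_const.mul measurable_id)
    exact measurable_const.mul (h1.div (measurable_const.mul measurable_id))
  · rw [tendsto_pi_nhds]
    intro y
    by_cases hy : y ∈ Set.Ico (1 : ℝ) 2
    · simp only [F0, Set.indicator_of_mem hy]
      exact F_tendsto hy.1 hy.2
    · simp only [F0, Set.indicator_of_notMem hy]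
      exact tendsto_const_nhds

lemma S_right (x : ℝ) (hx : 0 ≤ x) : ContinuousWithinAt S (Set.Ici x) x := by
  have h1 : S =ᶠ[𝓝[≥] x] fun _ => S x := by
    have h2 : x < (⌊x⌋₊ : ℝ) + 1 := Nat.lt_floor_add_one x
    filter_upwards [Ico_mem_nhdsGE h2] with z hz
    have h3 : ⌊z⌋₊ = ⌊x⌋₊ := by
      rw [Nat.floor_eq_iff (hx.trans hz.1)]
      exact ⟨(Nat.floor_le hx).trans hz.1, hz.2⟩
    rw [S, S, h3]
  exact (continuousWithinAt_const (b := S x)).congr_of_eventuallyEq h1 rfl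

lemma R_right (k : ℕ) {y : ℝ} (hy : 1 ≤ y) :
    ContinuousWithinAt (fun y => (-1 : ℝ) ^ k * (S (2 ^ k * y) / (2 ^ k * y))) (Set.Ici y) y := by
  have hp : (0 : ℝ) < 2 ^ k := by positivity
  have h1 : ContinuousWithinAt (fun y : ℝ => 2 ^ k * y) (Set.Ici y) y :=
    (continuous_const.mul continuous_id).continuousWithinAt
  have h2 : ContinuousWithinAt (fun y : ℝ => S (2 ^ k * y)) (Set.Ici y) y := by
    refine ContinuousWithinAt.comp (g := S) (f := fun y : ℝ => 2 ^ k * y) (t := Set.Ici (2 ^ k * y))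
      (S_right _ (by positivity)) h1 ?_
    intro z hz
    exact mul_le_mul_of_nonneg_left hz hp.le
  have hne : 2 ^ k * y ≠ 0 := by
    have : (0 : ℝ) < y := by linarith
    positivity
  exact continuousWithinAt_const.mul (h2.div h1 hne)

/-- the limit function is right continuous -/
lemma F0_right {y : ℝ} (hy : 1 ≤ y) (hy2 : y < 2) : ContinuousWithinAt F0 (Set.Ici y) y := by
  obtain ⟨C, hC, h⟩ := abs_S_near
  rw [Metric.continuousWithinAt_iff']
  intro ε hε
  obtain ⟨k, hk⟩ := exists_nat_gt (C / (ε / 3))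
  have hCk : C / ((k : ℝ) + 1) < ε / 3 := by
    rw [div_lt_iff₀ (by positivity)]
    rw [div_lt_iff₀ (by positivity)] at hk
    nlinarith
  have h1 := Metric.continuousWithinAt_iff'.1 (R_right k hy) (ε / 3) (by positivity)
  filter_upwards [h1, Ico_mem_nhdsGE hy2] with z hz hz2
  have hz1 : 1 ≤ z := hy.trans hz2.1
  have e1 : F0 z = F z := Set.indicator_of_mem (s := Set.Ico (1 : ℝ) 2) ⟨hz1, hz2.2⟩ F
  have e2 : F0 y = F y := Set.indicator_of_mem (s := Set.Ico (1 : ℝ) 2) ⟨hy, hy2⟩ F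
  rw [e1, e2, Real.dist_eq]
  rw [Real.dist_eq] at hz
  have key : ∀ w : ℝ, 1 ≤ w → w < 2 →
      |(-1 : ℝ) ^ k * (S (2 ^ k * w) / (2 ^ k * w)) - F w| < ε / 3 := by
    intro w hw hw2
    have h2 : (-1 : ℝ) ^ k * (S (2 ^ k * w) / (2 ^ k * w)) - F w =
        (-1) ^ k * (S (2 ^ k * w) / (2 ^ k * w) - (-1) ^ k * F w) := by
      rw [mul_sub, ← mul_assoc, ← mul_pow]; norm_num
    rw [h2, abs_sgn]
    exact (h k w hw hw2).trans_lt hCk
  have k1 := abs_lt.1 (key z hz1 hz2.2)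
  have k2 := abs_lt.1 (key y hy hy2)
  have k3 := abs_lt.1 hz
  rw [abs_lt]
  constructor <;> linarith [k1.1, k1.2, k2.1, k2.2, k3.1, k3.2]

lemma F0_abs_le (y : ℝ) : |F0 y| ≤ M := by
  by_cases hy : y ∈ Set.Ico (1 : ℝ) 2
  · rw [F0, Set.indicator_of_mem hy]; exact F_le hy
  · rw [F0, Set.indicator_of_notMem hy, abs_zero]; exact M_nonneg

end Pool.Agent.L5helper11.OM
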