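import Mathlib

set_option autoImplicit false

/-! Statements for the exact formula of `limsup |S(x)|/x` (MP_5db4ad_nt). -/

open Finset Filter Topology Complex MeasureTheory

namespace Pool.Agent.L5helper11.OM

/-- Fourier integral over one period -/
noncomputable def fc (Φ : ℝ → ℂ) (m : ℤ) : ℂ :=
  ∫ u in (0 : ℝ)..1, Φ u * Complex.exp (((-(2 * Real.pi * m * u) : ℝ) : ℂ) * I)

/-- J2: Fejér sums near a point of right continuity -/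
def J2 : Prop := ∀ (Φ : ℝ → ℂ) (A : ℝ), Measurable Φ → (∀ u, ‖Φ u‖ ≤ A) →
  ∀ u₀ : ℝ, 0 ≤ u₀ → u₀ < 1 → ContinuousWithinAt Φ (Set.Ici u₀) u₀ → ∀ ε : ℝ, 0 < ε →
  ∃ u₁ : ℝ, u₀ < u₁ ∧ u₁ < u₀ + ε ∧ u₁ < 1 ∧ ∃ N₀ : ℕ, ∀ N : ℕ, N₀ ≤ N →
    ‖(∑ i ∈ range N, ∑ j ∈ range N, fc Φ ((i : ℤ) - j) *
      Complex.exp (((2 * Real.pi * (((i : ℤ) - j : ℤ) : ℝ) * u₁ : ℝ) : ℂ) * I)) - N * Φ u₀‖ ≤ ε * N

/-- J1: mean value of an antiperiodic function, with an error that tends to `0`: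
`R(t)` plays the role of `S(t)/t` and `F` of its limit function -/
def J1 : Prop := ∀ (R F : ℝ → ℝ) (A : ℝ) (e : ℕ → ℝ), Measurable R → Measurable F →
  (∀ y, |F y| ≤ A) → Tendsto e atTop (𝓝 0) →
  (∀ (k : ℕ) (y : ℝ), 1 ≤ y → y < 2 → |R (2 ^ k * y) - (-1) ^ k * F y| ≤ e k) → ∀ k : ℕ,
  Tendsto (fun σ : ℝ => ((σ : ℂ) - 1) * ∫ t in Set.Ioi (1 : ℝ), ((R t * t ^ (-σ) : ℝ) : ℂ) *
      (t : ℂ) ^ (((-((2 * k + 1) * Real.pi / Real.log 2) : ℝ) : ℂ) * I)) (𝓝[>] 1)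
    (𝓝 (∫ u in (0 : ℝ)..1, (F (2 ^ u) : ℂ) *
      Complex.exp (((-((2 * k + 1) * Real.pi * u) : ℝ) : ℂ) * I)))

end Pool.Agent.L5helper11.OM
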