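import Pool.Agent.L5helper11.OM.D
import Pool.Agent.L5helper11.OM.Defs
import Pool.Agent.H553R3.W.TaskLap
import Pool.Agent.H142R3.W.TaskRes
import Pool.Agent.H559R3.W.TaskEP

set_option autoImplicit false

/-! Toeplitz bound, Fejér means and the Euler product of the coefficients. -/

open Finset Filter Topology Complex

namespace Pool.Agent.L5helper11.OM

open Pool.Agent.H295R3.W (ck Fh om sk Dirg)

/-- `e^{it}` -/
noncomputable def ee (t : ℝ) : ℂ := Complex.exp ((t : ℂ) * Complex.I)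

lemma ee_norm (t : ℝ) : ‖ee t‖ = 1 := Complex.norm_exp_ofReal_mul_I t

lemma ee_add (s t : ℝ) : ee (s + t) = ee s * ee t := by
  rw [ee, ee, ee, ← Complex.exp_add]; congr 1; push_cast; ring

lemma ee_conj (t : ℝ) : (starRingEnd ℂ) (ee t) = ee (-t) := by
  rw [ee, ee, ← Complex.exp_conj]; congr 1; simp

lemma ev_le {A : ℝ} (hA : M < A) : ∃ x₀ : ℝ, ∀ x : ℝ, x₀ ≤ x → |S x| ≤ A * x := by
  have h1 : limsup (fun x : ℝ => ((|S x| / x : ℝ) : EReal)) atTop < ((A : ℝ) : EReal) := by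
    rw [alpha_eq]; exact_mod_cast hA
  obtain ⟨x₀, h0⟩ := ((eventually_lt_of_limsup_lt h1).and
    (eventually_ge_atTop (1 : ℝ))).exists_forall_of_atTop
  refine ⟨x₀, fun x hx => ?_⟩
  obtain ⟨h2, h3⟩ := h0 x hx
  have h4 : |S x| / x < A := EReal.coe_lt_coe_iff.1 h2
  rw [div_lt_iff₀ (by linarith)] at h4
  exact h4.le

lemma toep (N : ℕ) (θ : ℝ) :
    ‖∑ i ∈ range N, ∑ j ∈ range N, Fh ck i j * ee (2 * Real.pi * ((i : ℝ) - j) * θ)‖ ≤ M * N := by
  refine le_of_forall_pos_le_add fun ε hε => ?_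
  set A : ℝ := M + ε / (N + 1) with hA
  have hN : (0 : ℝ) < (N : ℝ) + 1 := by positivity
  have hMA : M < A := by
    have : 0 < ε / ((N : ℝ) + 1) := by positivity
    linarith
  obtain ⟨x₀, h0⟩ := ev_le hMA
  have h1 := Pool.Agent.H553R3.W.taskLap A x₀ (M_nonneg.trans hMA.le) h0 N ck
    (fun k _ => Pool.Agent.H142R3.W.taskRes Pool.Agent.H630R3.W.taskG k)
    (fun i => ee (2 * Real.pi * i * θ)) (fun j => ee (-(2 * Real.pi * j * θ)))
  simp only [ee_norm, one_pow, sum_const, card_range, nsmul_eq_mul, mul_one] at h1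
  rw [mul_assoc, Real.mul_self_sqrt (Nat.cast_nonneg N)] at h1
  have h2 : ∑ i ∈ range N, ∑ j ∈ range N, Fh ck i j * ee (2 * Real.pi * ((i : ℝ) - j) * θ) =
      ∑ i ∈ range N, ∑ j ∈ range N, ee (2 * Real.pi * i * θ) * ee (-(2 * Real.pi * j * θ)) *
        Fh ck i j := by
    refine sum_congr rfl fun i _ => sum_congr rfl fun j _ => ?_
    rw [← ee_add, mul_comm]
    congr 2
    ring
  rw [h2]
  refine h1.trans ?_
  have h3 : ε / ((N : ℝ) + 1) * N ≤ ε := by
    rw [div_mul_eq_mul_div, div_le_iff₀ hN]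
    nlinarith
  rw [hA, add_mul]
  linarith

/-- the term of index `2n+1` -/
noncomputable def rr (c : ℕ → ℂ) (θ : ℝ) (n : ℕ) : ℝ := (c n * ee (Real.pi * (2 * n + 1) * θ)).re

/-- Fejér mean of order `2N` of the series with the odd frequencies `2n+1` -/
noncomputable def sg (c : ℕ → ℂ) (N : ℕ) (θ : ℝ) : ℝ :=
  ∑ n ∈ range N, 2 * (1 - (2 * (n : ℝ) + 1) / (2 * N)) * rr c θ n

lemma a_ge (c : ℕ → ℂ) (θ : ℝ) {i j : ℕ} (h : j ≤ i) :
    (ee (Real.pi * θ) * (Fh c i j * ee (2 * Real.pi * ((i : ℝ) - j) * θ))).re = rr c θ (i - j) := by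
  rw [Fh, if_pos h, rr]
  have : ee (Real.pi * (2 * ((i - j : ℕ) : ℝ) + 1) * θ) =
      ee (Real.pi * θ) * ee (2 * Real.pi * ((i : ℝ) - j) * θ) := by
    rw [← ee_add, Nat.cast_sub h]; congr 1; ring
  rw [this]
  congr 1; ring

lemma a_lt (c : ℕ → ℂ) (θ : ℝ) {i j : ℕ} (h : i < j) :
    (ee (Real.pi * θ) * (Fh c i j * ee (2 * Real.pi * ((i : ℝ) - j) * θ))).re = rr c θ (j - i - 1) := by
  rw [Fh, if_neg (not_le.2 h), rr]
  have e1 : ee (Real.pi * θ) * ((starRingEnd ℂ) (c (j - i - 1)) * ee (2 * Real.pi * ((i : ℝ) - j) * θ)) =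
      (starRingEnd ℂ) (c (j - i - 1) * ee (Real.pi * (2 * ((j - i - 1 : ℕ) : ℝ) + 1) * θ)) := by
    rw [map_mul, ee_conj]
    have e2 : ee (-(Real.pi * (2 * ((j - i - 1 : ℕ) : ℝ) + 1) * θ)) =
        ee (Real.pi * θ) * ee (2 * Real.pi * ((i : ℝ) - j) * θ) := by
      rw [← ee_add, Nat.cast_sub (by omega), Nat.cast_sub h.le]
      congr 1; push_cast; ring
    rw [e2]; ring
  rw [e1, Complex.conj_re]

lemma dbl_sum (c : ℕ → ℂ) (θ : ℝ) (N : ℕ) :
    ∑ i ∈ range N, ∑ j ∈ range N,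
      (ee (Real.pi * θ) * (Fh c i j * ee (2 * Real.pi * ((i : ℝ) - j) * θ))).re =
    ∑ n ∈ range N, (2 * (N : ℝ) - (2 * n + 1)) * rr c θ n := by
  induction N with
  | zero => simp
  | succ N ih =>
    rw [sum_range_succ]
    have h1 : ∑ i ∈ range N, ∑ j ∈ range (N + 1),
        (ee (Real.pi * θ) * (Fh c i j * ee (2 * Real.pi * ((i : ℝ) - j) * θ))).re =
        ∑ i ∈ range N, ∑ j ∈ range N,
        (ee (Real.pi * θ) * (Fh c i j * ee (2 * Real.pi * ((i : ℝ) - j) * θ))).re +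
        ∑ n ∈ range N, rr c θ n := by
      simp only [sum_range_succ _ N]
      rw [sum_add_distrib]
      congr 1
      rw [← sum_range_reflect]
      refine sum_congr rfl fun i hi => ?_
      rw [mem_range] at hi
      rw [a_lt c θ (by omega)]
      congr 1; omega
    have h2 : ∑ j ∈ range (N + 1),
        (ee (Real.pi * θ) * (Fh c N j * ee (2 * Real.pi * ((N : ℝ) - j) * θ))).re =
        ∑ n ∈ range (N + 1), rr c θ n := by
      rw [← sum_range_reflect]
      refine sum_congr rfl fun j hj => ?_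
      rw [mem_range] at hj
      rw [a_ge c θ (by omega)]
      congr 1; omega
    rw [h1, h2, ih, sum_range_succ _ N, sum_range_succ _ N]
    have h3 : ∑ n ∈ range N, (2 * ((N + 1 : ℕ) : ℝ) - (2 * n + 1)) * rr c θ n =
        ∑ n ∈ range N, (2 * (N : ℝ) - (2 * n + 1)) * rr c θ n + 2 * ∑ n ∈ range N, rr c θ n := by
      rw [mul_sum, ← sum_add_distrib]
      refine sum_congr rfl fun n _ => ?_
      push_cast; ring
    rw [h3]
    push_cast; ring

lemma sg_eq (c : ℕ → ℂ) (θ : ℝ) (N : ℕ) :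
    (N : ℝ) * sg c N θ = (ee (Real.pi * θ) *
      ∑ i ∈ range N, ∑ j ∈ range N, Fh c i j * ee (2 * Real.pi * ((i : ℝ) - j) * θ)).re := by
  have h : (ee (Real.pi * θ) *
      ∑ i ∈ range N, ∑ j ∈ range N, Fh c i j * ee (2 * Real.pi * ((i : ℝ) - j) * θ)).re =
      ∑ i ∈ range N, ∑ j ∈ range N,
      (ee (Real.pi * θ) * (Fh c i j * ee (2 * Real.pi * ((i : ℝ) - j) * θ))).re := by
    rw [mul_sum, Complex.re_sum]
    refine sum_congr rfl fun i _ => ?_
    rw [mul_sum, Complex.re_sum]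
  rw [h, dbl_sum, sg, mul_sum]
  refine sum_congr rfl fun n hn => ?_
  rw [mem_range] at hn
  have hN : (N : ℝ) ≠ 0 := by
    have : 0 < N := by omega
    positivity
  field_simp

/-- the Fejér means are at most `M` -/
lemma sg_le (N : ℕ) (hN : 1 ≤ N) (θ : ℝ) : |sg ck N θ| ≤ M := by
  have hN0 : (0 : ℝ) < N := by exact_mod_cast hN
  have h1 : |(N : ℝ) * sg ck N θ| ≤ M * N := by
    rw [sg_eq]
    refine (Complex.abs_re_le_norm _).trans ?_
    rw [norm_mul, ee_norm, one_mul]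
    exact toep N θ
  rw [abs_mul, abs_of_pos hN0, mul_comm] at h1
  exact le_of_mul_le_mul_right h1 hN0

lemma two_cpow (n : ℕ) : (2 : ℂ) ^ (-(sk n)) = -(1 / 2) := by
  have h := Pool.Agent.H142R3.W.two_cpow 1 n
  have h1 : ((1 : ℝ) : ℂ) + om n * I = sk n := by rw [sk]; push_cast; rfl
  rw [h1] at h
  simp only [sub_self, Real.rpow_zero, Complex.ofReal_one] at h
  linear_combination h / 2

/-- Euler product of the coefficients -/
lemma ck_lim (n : ℕ) : Tendsto (fun K : ℕ => 4 / (9 * (Real.log 2 : ℂ) * sk n * riemannZeta (sk n) ^ 2) *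
    ∏ p ∈ (Ico 3 K).filter Nat.Prime,
      (1 - 3 * ((p : ℂ) ^ (-(sk n))) ^ 2 + 2 * ((p : ℂ) ^ (-(sk n))) ^ 3)⁻¹) atTop (𝓝 (ck n)) := by
  have hs : (sk n).re = 1 := by rw [sk]; simp
  have hG := Pool.Agent.H630R3.W.taskG
  have hlim := EulerProduct.eulerProduct (Pool.Agent.H559R3.W.F_one (sk n))
    (fun {m n'} hmn => Pool.Agent.H559R3.W.F_mul (sk n) hmn)
    (Pool.Agent.H559R3.W.F_summable hG hs) (Pool.Agent.H559R3.W.F_zero (sk n))
  have hD : ∑' m, Pool.Agent.H559R3.W.F (sk n) m = Dirg (sk n) := rfl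
  rw [hD] at hlim
  have hprod : ∀ K : ℕ, 3 ≤ K → ∏ p ∈ Nat.primesBelow K, ∑' e, Pool.Agent.H559R3.W.F (sk n) (p ^ e) =
      4 / 9 * ∏ p ∈ (Ico 3 K).filter Nat.Prime,
        (1 - 3 * ((p : ℂ) ^ (-(sk n))) ^ 2 + 2 * ((p : ℂ) ^ (-(sk n))) ^ 3)⁻¹ := by
    intro K hK
    have hset : Nat.primesBelow K = insert 2 ((Ico 3 K).filter Nat.Prime) := by
      ext p
      simp only [Nat.mem_primesBelow, Finset.mem_insert, Finset.mem_filter, Finset.mem_Ico]
      constructor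
      · rintro ⟨h1, h2⟩
        have := h2.two_le
        by_cases h3 : p = 2
        · exact Or.inl h3
        · exact Or.inr ⟨⟨by omega, h1⟩, h2⟩
      · rintro (rfl | ⟨h1, h2⟩)
        · exact ⟨by omega, Nat.prime_two⟩
        · exact ⟨h1.2, h2⟩
    rw [hset, Finset.prod_insert, Pool.Agent.H559R3.W.local_two hG hs, two_cpow]
    · congr 1
      · norm_num
      · refine Finset.prod_congr rfl fun p hp => ?_
        rw [mem_filter, mem_Ico] at hp
        exact Pool.Agent.H559R3.W.local_odd hG hs hp.2 (by omega)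
    · simp
  have h2 : Tendsto (fun K : ℕ => 1 / ((Real.log 2 : ℂ) * sk n * riemannZeta (sk n) ^ 2) *
      ∏ p ∈ Nat.primesBelow K, ∑' e, Pool.Agent.H559R3.W.F (sk n) (p ^ e)) atTop (𝓝 (ck n)) := by
    have h3 : ck n = 1 / ((Real.log 2 : ℂ) * sk n * riemannZeta (sk n) ^ 2) * Dirg (sk n) := by
      rw [ck, one_div_mul_eq_div]
      congr 1
      ring
    rw [h3]
    exact hlim.const_mul _
  refine h2.congr' ?_
  filter_upwards [eventually_ge_atTop 3] with K hK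
  rw [hprod K hK, ← mul_assoc]
  congr 1
  rw [div_mul_div_comm]
  congr 1
  · ring
  · ring

end Pool.Agent.L5helper11.OM
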