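import Pool.Agent.L5helper11.OM.E

set_option autoImplicit false

/-! The exact formula, from J1 and J2. -/

open Finset Filter Topology Complex MeasureTheory

namespace Pool.Agent.L5helper11.OM

open Pool.Agent.H295R3.W (ck Fh om sk Dirg)

/-- the coefficients are the Fourier coefficients of the limit function -/
lemma ck_int (j1 : J1) (k : ℕ) : ck k = ∫ u in (0 : ℝ)..1, (F0 (2 ^ u) : ℂ) *
    Complex.exp (((-((2 * k + 1) * Real.pi * u) : ℝ) : ℂ) * I) := by
  obtain ⟨C, hC, h⟩ := abs_S_near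
  obtain ⟨x₀, h0⟩ := ev_le (show M < M + 1 by linarith)
  have hR : Measurable fun t : ℝ => S t / t := S_meas.div measurable_id
  have he : Tendsto (fun k : ℕ => C / ((k : ℝ) + 1)) atTop (𝓝 0) := by
    have := tendsto_one_div_add_atTop_nhds_zero_nat (𝕜 := ℝ)
    simpa [div_eq_mul_inv] using this.const_mul C
  have h1 := j1 (fun t => S t / t) F0 M (fun k => C / ((k : ℝ) + 1)) hR F0_meas F0_abs_le he
    (fun k y hy hy2 => by
      have e2 : F0 y = F y := Set.indicator_of_mem (s := Set.Ico (1 : ℝ) 2) ⟨hy, hy2⟩ F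
      rw [e2]
      exact h k y hy hy2) k
  have h2 := Pool.Agent.H142R3.W.taskRes Pool.Agent.H630R3.W.taskG k
  refine tendsto_nhds_unique h2 (h1.congr' ?_)
  filter_upwards [self_mem_nhdsWithin] with σ hσ
  have h3 := Pool.Agent.H553R3.W.dirF (M + 1) x₀ h0 σ (om k) hσ
  rw [h3]
  congr 1
  rw [Pool.Agent.H553R3.W.F]
  refine setIntegral_congr_fun measurableSet_Ioi fun t ht => ?_
  have ht' : (0 : ℝ) < t := lt_trans one_pos ht
  have e1 : S t / t * t ^ (-σ) = Pool.Agent.H295R3.W.S t * t ^ (-σ - 1) := by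
    rw [Real.rpow_sub ht', Real.rpow_one]
    change S t / t * t ^ (-σ) = S t * (t ^ (-σ) / t)
    ring
  rw [e1, Pool.Agent.H553R3.W.X, om]

/-- the function with Toeplitz coefficients `Fh ck` -/
noncomputable def Ph (u : ℝ) : ℂ := (F0 (2 ^ u) : ℂ) * ee (-(Real.pi * u))

lemma fc_eq (j1 : J1) (i j : ℕ) : fc Ph ((i : ℤ) - j) = Fh ck i j := by
  rw [fc, Fh]
  split_ifs with hij
  · rw [ck_int j1]
    refine intervalIntegral.integral_congr fun u _ => ?_
    simp only [Ph]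
    rw [mul_assoc]
    congr 1
    change ee _ * ee _ = ee _
    rw [← ee_add, Nat.cast_sub hij]
    congr 1
    push_cast; ring
  · have hij' : i < j := by omega
    rw [ck_int j1, intervalIntegral.integral_of_le zero_le_one, intervalIntegral.integral_of_le zero_le_one,
      ← integral_conj]
    refine integral_congr_ae (ae_of_all _ fun u => ?_)
    simp only [Ph]
    rw [mul_assoc, map_mul, Complex.conj_ofReal]
    congr 1
    change ee _ * ee _ = (starRingEnd ℂ) (ee _)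
    rw [← ee_add, ee_conj, Nat.cast_sub (by omega), Nat.cast_sub hij'.le]
    congr 1
    push_cast; ring

lemma Ph_meas : Measurable Ph := by
  refine Measurable.mul ?_ ?_
  · refine Complex.measurable_ofReal.comp (F0_meas.comp ?_)
    exact (Real.continuous_const_rpow (by norm_num)).measurable
  · have : Continuous fun u : ℝ => ee (-(Real.pi * u)) := by
      unfold ee
      fun_prop
    exact this.measurable

lemma Ph_norm (u : ℝ) : ‖Ph u‖ = |F0 (2 ^ u)| := by
  rw [Ph, norm_mul, ee_norm, mul_one, Complex.norm_real, Real.norm_eq_abs]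

lemma Ph_right {u₀ : ℝ} (h0 : 0 ≤ u₀) (h1 : u₀ < 1) : ContinuousWithinAt Ph (Set.Ici u₀) u₀ := by
  have hc : Continuous fun u : ℝ => (2 : ℝ) ^ u := Real.continuous_const_rpow (by norm_num)
  have h2 : ContinuousWithinAt (fun u : ℝ => F0 (2 ^ u)) (Set.Ici u₀) u₀ := by
    refine ContinuousWithinAt.comp (g := F0) (f := fun u : ℝ => (2 : ℝ) ^ u)
      (t := Set.Ici ((2 : ℝ) ^ u₀)) (F0_right ?_ ?_) hc.continuousWithinAt ?_
    · exact Real.one_le_rpow (by norm_num) h0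
    · calc (2 : ℝ) ^ u₀ < 2 ^ (1 : ℝ) := Real.rpow_lt_rpow_of_exponent_lt (by norm_num) h1
        _ = 2 := Real.rpow_one 2
    · intro u hu
      exact Real.rpow_le_rpow_of_exponent_le (by norm_num) hu
  have h3 : Continuous fun u : ℝ => ee (-(Real.pi * u)) := by
    unfold ee
    fun_prop
  exact ((Complex.continuous_ofReal.continuousAt.comp_continuousWithinAt h2)).mul h3.continuousWithinAt

/-- the Fejér means come near every value of the limit function -/
lemma sg_near (j1 : J1) (j2 : J2) {y : ℝ} (hy : 1 ≤ y) (hy2 : y < 2) {δ : ℝ} (hδ : 0 < δ) :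
    ∃ θ : ℝ, ∃ N₀ : ℕ, ∀ N : ℕ, N₀ ≤ N → |F y| - δ ≤ |sg ck N θ| := by
  have hM := M_nonneg
  set u₀ : ℝ := Real.logb 2 y with hu₀
  have h2u : (2 : ℝ) ^ u₀ = y := Real.rpow_logb (by norm_num) (by norm_num) (by linarith)
  have hu0 : 0 ≤ u₀ := Real.logb_nonneg (by norm_num) hy
  have hu1 : u₀ < 1 := by
    rw [hu₀, Real.logb_lt_iff_lt_rpow (by norm_num) (by linarith), Real.rpow_one]; exact hy2
  have hFy : F0 y = F y := Set.indicator_of_mem (s := Set.Ico (1 : ℝ) 2) ⟨hy, hy2⟩ F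
  -- choice of `ε`
  obtain ⟨ε, hε, hε1, hε2⟩ : ∃ ε : ℝ, 0 < ε ∧ ε ≤ 1 ∧ ε * (1 + 8 * M) ≤ δ := by
    refine ⟨min 1 (δ / (1 + 8 * M)), lt_min one_pos (by positivity), min_le_left _ _, ?_⟩
    calc min 1 (δ / (1 + 8 * M)) * (1 + 8 * M) ≤ δ / (1 + 8 * M) * (1 + 8 * M) :=
          mul_le_mul_of_nonneg_right (min_le_right _ _) (by positivity)
      _ = δ := by field_simp
  obtain ⟨u₁, hl, hr, hu11, N₀, hN⟩ := j2 Ph M Ph_meas (fun u => by rw [Ph_norm]; exact F0_abs_le _)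
    u₀ hu0 hu1 (Ph_right hu0 hu1) ε hε
  refine ⟨u₁, max N₀ 1, fun N hNN => ?_⟩
  have hN1 : 1 ≤ N := (le_max_right _ _).trans hNN
  have hN0 : (0 : ℝ) < N := by exact_mod_cast hN1
  have h1 := hN N ((le_max_left _ _).trans hNN)
  have e1 : ∑ i ∈ range N, ∑ j ∈ range N, fc Ph ((i : ℤ) - j) *
      Complex.exp (((2 * Real.pi * (((i : ℤ) - j : ℤ) : ℝ) * u₁ : ℝ) : ℂ) * I) =
      ∑ i ∈ range N, ∑ j ∈ range N, Fh ck i j * ee (2 * Real.pi * ((i : ℝ) - j) * u₁) := by
    refine sum_congr rfl fun i _ => sum_congr rfl fun j _ => ?_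
    rw [fc_eq j1, ee]
    push_cast
    rfl
  rw [e1] at h1
  have h3 : |(N : ℝ) * sg ck N u₁ - (ee (Real.pi * u₁) * (N * Ph u₀)).re| ≤ ε * N := by
    rw [sg_eq, ← Complex.sub_re, ← mul_sub]
    refine (Complex.abs_re_le_norm _).trans ?_
    rw [norm_mul, ee_norm, one_mul]
    exact h1
  have h4 : (ee (Real.pi * u₁) * (N * Ph u₀)).re = N * (F y * Real.cos (Real.pi * (u₁ - u₀))) := by
    rw [Ph, h2u, hFy]
    have : ee (Real.pi * u₁) * (N * ((F y : ℂ) * ee (-(Real.pi * u₀)))) =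
        ((N * F y : ℝ) : ℂ) * ee (Real.pi * (u₁ - u₀)) := by
      have e2 : ee (Real.pi * (u₁ - u₀)) = ee (Real.pi * u₁) * ee (-(Real.pi * u₀)) := by
        rw [← ee_add]; congr 1; ring
      rw [e2]; push_cast; ring
    rw [this, Complex.re_ofReal_mul, ee, Complex.exp_ofReal_mul_I_re]
    ring
  rw [h4, ← mul_sub, abs_mul, abs_of_pos hN0, mul_comm ε] at h3
  have h5 : |sg ck N u₁ - F y * Real.cos (Real.pi * (u₁ - u₀))| ≤ ε := le_of_mul_le_mul_left h3 hN0
  have h6 := Real.one_sub_sq_div_two_le_cos (x := Real.pi * (u₁ - u₀))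
  have h7 : (Real.pi * (u₁ - u₀)) ^ 2 / 2 ≤ 8 * ε := by
    have p1 := Real.pi_lt_four
    have p2 := Real.pi_pos
    have q1 : 0 ≤ Real.pi * (u₁ - u₀) := by
      have : 0 < u₁ - u₀ := by linarith
      positivity
    have q2 : Real.pi * (u₁ - u₀) ≤ 4 * ε := by nlinarith
    nlinarith
  have h8 : |F y| * (1 - Real.cos (Real.pi * (u₁ - u₀))) ≤ M * (8 * ε) :=
    mul_le_mul (F_le ⟨hy, hy2⟩) (by linarith) (by linarith [Real.cos_le_one (Real.pi * (u₁ - u₀))]) hM
  have h9 : |F y| - |F y| * (1 - Real.cos (Real.pi * (u₁ - u₀))) ≤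
      |F y * Real.cos (Real.pi * (u₁ - u₀))| := by
    rw [abs_mul]
    have := mul_le_mul_of_nonneg_left (le_abs_self (Real.cos (Real.pi * (u₁ - u₀)))) (abs_nonneg (F y))
    linarith
  have h10 : |F y * Real.cos (Real.pi * (u₁ - u₀))| - |sg ck N u₁| ≤ ε := by
    have := abs_sub_abs_le_abs_sub (F y * Real.cos (Real.pi * (u₁ - u₀))) (sg ck N u₁)
    rw [abs_sub_comm] at this
    linarith
  nlinarith

/-- exact formula for `M` -/
theorem M_formula (j1 : J1) (j2 : J2) :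
    Tendsto (fun N : ℕ => sSup (Set.range fun θ : ℝ => |sg ck N θ|)) atTop (𝓝 M) := by
  rw [Metric.tendsto_atTop]
  intro δ hδ
  obtain ⟨_, ⟨y, hy, rfl⟩, hry⟩ := exists_lt_of_lt_csSup (⟨_, ⟨1, by norm_num, rfl⟩⟩ :
      ((fun y => |F y|) '' Set.Ico 1 2).Nonempty) (show M - δ / 2 < M by linarith)
  simp only at hry
  obtain ⟨θ, N₀, h⟩ := sg_near j1 j2 hy.1 hy.2 (show 0 < δ / 4 by linarith)
  refine ⟨max N₀ 1, fun N hN => ?_⟩
  have hN1 : 1 ≤ N := (le_max_right _ _).trans hN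
  have h1 := h N ((le_max_left _ _).trans hN)
  have h2 : |sg ck N θ| ≤ sSup (Set.range fun θ : ℝ => |sg ck N θ|) := by
    refine le_csSup ⟨M, ?_⟩ ⟨θ, rfl⟩
    rintro _ ⟨t, rfl⟩
    exact sg_le N hN1 t
  have h3 : sSup (Set.range fun θ : ℝ => |sg ck N θ|) ≤ M := by
    refine csSup_le (Set.range_nonempty _) ?_
    rintro _ ⟨t, rfl⟩
    exact sg_le N hN1 t
  rw [Real.dist_eq, abs_lt]
  constructor <;> linarith

end Pool.Agent.L5helper11.OM
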